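import Pool.Agent.Y560.TG.Stm

/-!
Project TG: automorphisms of the closed segments of one-ended structures extend.
-/

set_option autoImplicit false

namespace Pool.Agent.Y785.TG

open Set
open Pool.Agent.H566P (R2 lt ac co LA)
open Pool.Agent.Y560.TG

theorem t_HEXT (hG : S_GEO) (hE : S_OEB) : S_HEXT := by
  intro Γ _ g hg Y β m hY hβ hO φ hlt hac hco hLr hm
  obtain ⟨t, hLA, -⟩ := MB.la hY
  obtain ⟨-, -, hE3, hE4, -⟩ := hE Γ g hg Y β hY hβ hO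
  obtain ⟨-, -, -, -, -, -, -, -, -, -, -, -, hG13⟩ := hG Γ g hg Y hY
  classical
  have hmA : ¬ Bg β Y m m := fun hB => hB.1 ((orb_iff hg hLA).2 ⟨1, hLA.one m⟩)
  have hφm : (φ ⟨m, hmA⟩ : ℕ) = m := hm ⟨m, hmA⟩ rfl
  -- the action at `m`
  have hacm : ∀ (n : ℕ) (a : {k // ¬ Bg β Y m k}), ac Y n m (φ a) ↔ ac Y n m a := by
    intro n a
    have h1 := hac n ⟨m, hmA⟩ a
    rwa [hφm] at h1
  have hfix : ∀ a : {k // ¬ Bg β Y m k}, orb Y m a → (φ a : ℕ) = a := by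
    rintro a ⟨n, hn⟩
    have h1 := (hacm n a).2 hn
    rw [la_ac hLA] at h1 hn
    rw [← h1, ← hn]
  -- the labels
  have hQ : ∀ (k : ℕ) (a : {k // ¬ Bg β Y m k}), Q Y m k (φ a) ↔ Q Y m k a := by
    intro k a
    obtain ⟨j, rfl | rfl⟩ : ∃ j, k = 2 * j ∨ k = 2 * j + 1 := ⟨k / 2, by omega⟩
    · rw [Q_even_iff hLA, Q_even_iff hLA]
      have hb : orb Y m (t (g j) m) := (orb_iff hg hLA).2 ⟨_, rfl⟩
      have hbA : ¬ Bg β Y m (t (g j) m) := fun hB => hB.1 hb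
      have h1 := hlt ⟨t (g j) m, hbA⟩ a
      rwa [hfix ⟨t (g j) m, hbA⟩ hb] at h1
    · rw [Q_odd, Q_odd]
      exact hacm j a
  have hsl : ∀ a : {k // ¬ Bg β Y m k}, sl Y m (φ a) a := fun a k => hQ k a
  have hLrm : ∀ a : {k // ¬ Bg β Y m k}, Lr β Y m (φ a) ↔ Lr β Y m a := by
    intro a
    have h1 := hLr ⟨m, hmA⟩ a
    rwa [hφm] at h1
  -- the order between the two parts
  have hAB : ∀ (a : {k // ¬ Bg β Y m k}) (b : ℕ), Bg β Y m b → (lt Y (φ a) b ↔ lt Y a b) := by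
    intro a b hb
    by_cases h : sl Y m a b
    · rw [hE4 m a b a.2 hb h, hE4 m (φ a) b (φ a).2 hb (sl_trans (hsl a) h)]
      exact hLrm a
    · have h' : ¬ sl Y m (φ a) b := fun h1 => h (sl_trans (sl_symm (hsl a)) h1)
      rw [hG13 m a b h, hG13 m (φ a) b h']
      simp only [hQ]
  have hne : ∀ (a : {k // ¬ Bg β Y m k}) (b : ℕ), Bg β Y m b → (a : ℕ) ≠ b := by
    rintro a b hb rfl
    exact a.2 hb
  have hrev : ∀ (a : {k // ¬ Bg β Y m k}) (b : ℕ), Bg β Y m b → (lt Y b a ↔ ¬ lt Y a b) := by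
    intro a b hb
    refine ⟨fun h => la_asymm hLA h, fun h => ?_⟩
    rcases hLA.tot _ _ (hne a b hb) with h1 | h1
    · exact absurd h1 h
    · exact h1
  have hBA : ∀ (a : {k // ¬ Bg β Y m k}) (b : ℕ), Bg β Y m b → (lt Y b (φ a) ↔ lt Y b a) := by
    intro a b hb
    rw [hrev _ b hb, hrev _ b hb, hAB a b hb]
  -- the permutation
  have hσA : ∀ a : {k // ¬ Bg β Y m k}, Equiv.Perm.ofSubtype φ (a : ℕ) = φ a :=
    fun a => Equiv.Perm.ofSubtype_apply_coe φ a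
  have hσB : ∀ b : ℕ, Bg β Y m b → Equiv.Perm.ofSubtype φ b = b :=
    fun b hb => Equiv.Perm.ofSubtype_apply_of_not_mem φ (by simpa using hb)
  refine ⟨Equiv.Perm.ofSubtype φ, fun x y => ?_, fun n x y => ?_, fun n x => ?_, hσA⟩
  · by_cases hx : Bg β Y m x
    · by_cases hy : Bg β Y m y
      · rw [hσB x hx, hσB y hy]
      · rw [hσB x hx, hσA ⟨y, hy⟩]
        exact hBA ⟨y, hy⟩ x hx
    · by_cases hy : Bg β Y m y
      · rw [hσB y hy, hσA ⟨x, hx⟩]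
        exact hAB ⟨x, hx⟩ y hy
      · rw [hσA ⟨x, hx⟩, hσA ⟨y, hy⟩]
        exact hlt _ _
  · by_cases hx : Bg β Y m x
    · by_cases hy : Bg β Y m y
      · rw [hσB x hx, hσB y hy]
      · rw [hσB x hx, hσA ⟨y, hy⟩]
        exact ⟨fun h => absurd ((hE3 n m _ _ h).1 hx) (φ ⟨y, hy⟩).2,
          fun h => absurd ((hE3 n m _ _ h).1 hx) hy⟩
    · by_cases hy : Bg β Y m y
      · rw [hσB y hy, hσA ⟨x, hx⟩]
        exact ⟨fun h => absurd ((hE3 n m _ _ h).2 hy) (φ ⟨x, hx⟩).2,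
          fun h => absurd ((hE3 n m _ _ h).2 hy) hx⟩
      · rw [hσA ⟨x, hx⟩, hσA ⟨y, hy⟩]
        exact hac n _ _
  · by_cases hx : Bg β Y m x
    · rw [hσB x hx]
    · rw [hσA ⟨x, hx⟩]
      exact hco n _

end Pool.Agent.Y785.TG
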